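import Pool.Agent.P8H97.FE.Inf
import Pool.Agent.P8H89.FE.Low
import Pool.Agent.P8H89.FE.Mom
import Pool.Agent.P8H59.FE.Pos
import Pool.Agent.P8H59.FE.Den
import Pool.Agent.P8H52.FE.Svb
import Pool.Agent.P8H23.FE.Box
import Pool.Agent.Y949.DK.SV
import Pool.Agent.Y185.DK.Avg

/-!
# Fractional powers in the primes: question Q2 for almost all exponents

Let `l ≥ 1`. For almost all vectors `c = (c_1, …, c_l)` of positive real numbers (in the sense of Lebesgue)
the answer to Q2 is yes: for every `N` there are a prime `m` and an `n ≥ N` for which all the numbers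
`m + [n ^ c_i]` are prime.

The quantitative form: let `A` be any real number. For almost all `c` with `0 < c_i < A` there is `κ > 0` such that
the `n` for which at least `κ n ^ A / (log n) ^ (l + 1)` primes `m ≤ n ^ A` have all `m + [n ^ c_i]` prime have an
upper density of at least `κ`. The number of these `m` has the order of magnitude which is expected. Moreover `n`
can be taken in any prescribed infinite set `T` of natural numbers: for almost all `c` (the null set depends on `T`)
there are infinitely many `n ∈ T` with this property. (For the powers of two: for almost all vectors of real numbers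
`θ_i > 1` there are, for infinitely many `k`, primes `m` for which all `m + [θ_i ^ k]` are prime.)

Proof. Let `h_i ≤ H_i`, where `N ^ η ≤ H_i ≤ N` are of different orders of magnitude. A prime `p ≤ N` which is
not one of the last few primes in its blocks of lengths `H_1, …, H_l` has the expected number of primes to the
right of it in each of these blocks, so that the mean value over the box of the number of the primes `m ≤ N` with
all `m + h_i` prime is at least of the order `N / (log N) ^ (l + 1)`; no information about primes in short intervals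
is necessary. By the upper bound sieve (starting files) the mean square has the order of the square of this, so a
positive proportion of the vectors `h` in every box of this kind have the expected order of prime tuples. Hence for
every vector `x` the exponents `c` in a cube around `x` with sides of the order `1 / log n` for which the vector of
the `[n ^ c_i]` has this property form a positive proportion of the cube. The theorem follows with the density theorem
of Lebesgue: otherwise there would be a set of exponents of positive measure, for which the property is rare, and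
`x` can be a point of density of it.

Project FE: helper97 with helpers 23, 52, 59, 89.
-/

set_option autoImplicit false

namespace Pool.Agent.Results.MP_cb2931_nt.AlmostAllExponents

open Filter MeasureTheory

/-- The number of the primes `m ≤ n ^ A` for which all the numbers `m + [n ^ (c i)]` are prime. -/
noncomputable def count {l : ℕ} (A : ℝ) (c : Fin l → ℝ) (n : ℕ) : ℕ :=
  {m : ℕ | (m : ℝ) ≤ (n : ℝ) ^ A ∧ m.Prime ∧ ∀ i, (m + ⌊(n : ℝ) ^ (c i)⌋₊).Prime}.ncard

/-- The number of the `n` with `1 ≤ n ≤ X` for which at least `κ n ^ A / (log n) ^ (l + 1)` primes `m ≤ n ^ A` have all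
`m + [n ^ (c i)]` prime. -/
noncomputable def good {l : ℕ} (κ A : ℝ) (c : Fin l → ℝ) (X : ℕ) : ℕ :=
  {n : ℕ | 1 ≤ n ∧ n ≤ X ∧ κ * ((n : ℝ) ^ A / Real.log n ^ (l + 1)) ≤ count A c n}.ncard

/-- **Q2 for almost all exponents.** Let `l ≥ 1`. First part: for every real `A` and almost all `c` with `0 < c i < A`
for all `i` there is `κ > 0` such that `good κ A c X ≥ κ X` for infinitely many `X`. Second part: for every infinite set `T`
of natural numbers, every real `A` and almost all `c` with `0 < c i < A` for all `i` there is `κ > 0` such that for infinitely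
many `n ∈ T` at least `κ n ^ A / (log n) ^ (l + 1)` primes `m ≤ n ^ A` have all `m + [n ^ (c i)]` prime. Third part: for every
infinite set `T`, almost all `c` with `c i > 0` for all `i` and every `N` there are a prime `m` and `n ∈ T`, `n ≥ N`, such that
all `m + [n ^ (c i)]` are prime. -/
theorem result (l : ℕ) (hl : 0 < l) :
    (∀ A : ℝ, ∀ᵐ c : Fin l → ℝ, (∀ i, 0 < c i ∧ c i < A) →
      ∃ κ : ℝ, 0 < κ ∧ ∃ᶠ X : ℕ in atTop, κ * X ≤ (good κ A c X : ℝ)) ∧
    (∀ T : Set ℕ, T.Infinite → ∀ A : ℝ, ∀ᵐ c : Fin l → ℝ, (∀ i, 0 < c i ∧ c i < A) →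
      ∃ κ : ℝ, 0 < κ ∧ ∃ᶠ n : ℕ in atTop, n ∈ T ∧
        κ * ((n : ℝ) ^ A / Real.log n ^ (l + 1)) ≤ count A c n) ∧
    ∀ T : Set ℕ, T.Infinite → ∀ᵐ c : Fin l → ℝ, (∀ i, 0 < c i) → ∀ N : ℕ,
      ∃ m n : ℕ, N ≤ n ∧ n ∈ T ∧ m.Prime ∧ ∀ i, (m + ⌊(n : ℝ) ^ (c i)⌋₊).Prime := by
  have hP := Pool.Agent.P8H59.FE.pos Pool.Agent.P8H89.FE.low
      (Pool.Agent.P8H59.FE.sec (Pool.Agent.P8H52.FE.svb Pool.Agent.Y949.DK.t_SV)
        (Pool.Agent.P8H89.FE.mom Pool.Agent.Y185.DK.AV.t_AVG))
  exact ⟨Pool.Agent.P8H97.FE.part1 hP Pool.Agent.P8H23.FE.bx Pool.Agent.P8H59.FE.den l hl,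
    fun T hT A => Pool.Agent.P8H97.FE.part_inf hP Pool.Agent.P8H23.FE.bx T hT l hl A,
    fun T hT => Pool.Agent.P8H97.FE.lit_inf hP Pool.Agent.P8H23.FE.bx T hT l hl⟩

end Pool.Agent.Results.MP_cb2931_nt.AlmostAllExponents
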