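import Pool.Agent.P8H97.FE.Inf
import Pool.Agent.P8H97.FE.Fam
import Pool.Agent.P8H44.FE.Ap
import Pool.Agent.P8H52.FE.Svb
import Pool.Agent.P8H59.FE.Den
import Pool.Agent.P8H23.FE.Box
import Pool.Agent.Y949.DK.SV
import Pool.Agent.Y185.DK.Avg

/-!
# Progressions of primes with common difference `[n ^ c]`: question Q1 for almost all `c`

Three terms (`l = 2`), unconditional: for almost all `c > 0` (in the sense of Lebesgue) and every `N` there are `m` and
`n ≥ N` such that `m`, `m + [n ^ c]`, `m + 2 [n ^ c]` are prime. The set of these `n` has positive upper density, with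
at least `κ n ^ c / (log n) ^ 3` numbers `m ≤ K n ^ c`, which is the expected order of magnitude.

Moreover `n` can be taken in any prescribed infinite set `T` of natural numbers: for almost all `c > 0` (the null set
depends on `T`) there are infinitely many `n ∈ T` with this property. (For the powers of two: for almost all real `θ > 1`
there are, for infinitely many `k`, progressions of three primes with difference `[θ ^ k]`.)

Every length: the same holds for `l + 1` terms if the number of the progressions of `l + 1` primes with first term and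
difference at most `N` has the expected order of magnitude `N ^ 2 / (log N) ^ (l + 1)` from below, which is a theorem of Green and
Tao (2008) for every `l`. Hence their theorem gives Q1 (all lengths, every `N`) for almost all `c > 0`.

Proof. For almost all primes `q ≤ N` the number `2 q` has the expected number of representations as the sum of two primes
(starting files, the circle method): these are three term progressions of primes with the middle term `q`. So for `l = 2` the
mean value over the `d ≤ N` of the number of the progressions of primes with difference `d` and first term at most `N` has at least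
the order `N / (log N) ^ (l + 1)`. By the upper bound sieve (starting files) the mean square has the order of the square of
this, so a positive proportion of the `d ≤ N` have the expected order of progressions. Hence for every `x > 0` the
exponents `c` in an interval around `x` of a length of the order `1 / log n` for which `[n ^ c]` has this property form a positive
proportion of the interval, and the theorem follows with the density theorem of Lebesgue.

Project FE: helper97 with helpers 23, 44, 52, 59, 88.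
-/

set_option autoImplicit false

namespace Pool.Agent.Results.MP_cb2931_nt.AlmostAllProgressions

open Filter MeasureTheory

/-- The number of the `m ≤ K n ^ c` for which all the numbers `m + j [n ^ c]`, `0 ≤ j ≤ l`, are prime. -/
noncomputable def count (l : ℕ) (K c : ℝ) (n : ℕ) : ℕ :=
  {m : ℕ | (m : ℝ) ≤ K * (n : ℝ) ^ c ∧ ∀ j ≤ l, (m + j * ⌊(n : ℝ) ^ c⌋₊).Prime}.ncard

/-- The number of the `n` with `1 ≤ n ≤ X` for which at least `κ n ^ c / (log n) ^ (l + 1)` numbers `m ≤ K n ^ c` have
`m + j [n ^ c]` prime for all `0 ≤ j ≤ l`. -/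
noncomputable def good (l : ℕ) (κ K c : ℝ) (X : ℕ) : ℕ :=
  {n : ℕ | 1 ≤ n ∧ n ≤ X ∧ κ * ((n : ℝ) ^ c / Real.log n ^ (l + 1)) ≤ count l K c n}.ncard

/-- There is `K > 0` such that for almost all `c > 0` there is `κ > 0` with `good l κ K c X ≥ κ X` for infinitely many
`X`. -/
def Dense (l : ℕ) : Prop :=
  ∃ K : ℝ, 0 < K ∧ ∀ᵐ c : ℝ, 0 < c → ∃ κ : ℝ, 0 < κ ∧ ∃ᶠ X : ℕ in atTop, κ * X ≤ (good l κ K c X : ℝ)

/-- There is `K > 0` such that for every infinite set `T` of natural numbers and almost all `c > 0` there is `κ > 0`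
such that for infinitely many `n ∈ T` at least `κ n ^ c / (log n) ^ (l + 1)` numbers `m ≤ K n ^ c` have `m + j [n ^ c]` prime
for all `0 ≤ j ≤ l`. -/
def Along (l : ℕ) : Prop :=
  ∃ K : ℝ, 0 < K ∧ ∀ T : Set ℕ, T.Infinite → ∀ᵐ c : ℝ, 0 < c → ∃ κ : ℝ, 0 < κ ∧
    ∃ᶠ n : ℕ in atTop, n ∈ T ∧ κ * ((n : ℝ) ^ c / Real.log n ^ (l + 1)) ≤ count l K c n

/-- For every infinite set `T` of natural numbers, almost all `c > 0` and every `N` there are `m` and `n ∈ T`, `n ≥ N`, with
`m + j [n ^ c]` prime for all `0 ≤ j ≤ l`. -/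
def Solvable (l : ℕ) : Prop :=
  ∀ T : Set ℕ, T.Infinite → ∀ᵐ c : ℝ, 0 < c → ∀ N : ℕ, ∃ m n : ℕ, N ≤ n ∧ n ∈ T ∧
    ∀ j ≤ l, (m + j * ⌊(n : ℝ) ^ c⌋₊).Prime

/-- The number of the pairs `(m, d)` with `1 ≤ m ≤ N` and `1 ≤ d ≤ N` for which `m`, `m + d`, ..., `m + l d` are prime. -/
noncomputable def pairs (l N : ℕ) : ℕ :=
  {p : ℕ × ℕ | 1 ≤ p.1 ∧ p.1 ≤ N ∧ 1 ≤ p.2 ∧ p.2 ≤ N ∧ ∀ j ≤ l, (p.1 + j * p.2).Prime}.ncard

/-- The lower bound of Green and Tao (2008) for the number of the progressions of `l + 1` primes: at least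
`κ N ^ 2 / (log N) ^ (l + 1)` for all large `N`, with some `κ > 0`. -/
def GreenTao (l : ℕ) : Prop :=
  ∃ κ : ℝ, 0 < κ ∧ ∀ᶠ N : ℕ in atTop, κ * ((N : ℝ) ^ 2 / Real.log N ^ (l + 1)) ≤ (pairs l N : ℝ)

/-- **Q1 for almost all exponents.** First part: three terms, without any hypothesis. Second part: every length `l + 1`, from
the lower bound of Green and Tao for this length. Third part: all lengths, from their bound for all lengths. -/
theorem result :
    (Dense 2 ∧ Along 2 ∧ Solvable 2) ∧
    (∀ l : ℕ, 1 ≤ l → GreenTao l → Dense l ∧ Along l ∧ Solvable l) ∧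
    ((∀ l : ℕ, 1 ≤ l → GreenTao l) → ∀ T : Set ℕ, T.Infinite → ∀ᵐ c : ℝ, 0 < c → ∀ l N : ℕ,
      ∃ m n : ℕ, N ≤ n ∧ n ∈ T ∧ ∀ j ≤ l, (m + j * ⌊(n : ℝ) ^ c⌋₊).Prime) := by
  have hS := Pool.Agent.P8H52.FE.svb Pool.Agent.Y949.DK.t_SV
  have h1 : ∀ l : ℕ, 1 ≤ l → Pool.Agent.P8H97.FE.S_APl l → Dense l ∧ Along l ∧ Solvable l := by
    intro l hl h
    have hT := Pool.Agent.P8H97.FE.thrl l h
      (Pool.Agent.P8H97.FE.upl l hl Pool.Agent.Y185.DK.AV.t_AVG hS)
    have hA : Along l := Pool.Agent.P8H97.FE.prog_inf2 l hT Pool.Agent.P8H23.FE.bx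
    refine ⟨(Pool.Agent.P8H97.FE.finall l hT Pool.Agent.P8H23.FE.bx Pool.Agent.P8H59.FE.den).1, hA, ?_⟩
    obtain ⟨K, _, h2⟩ := hA
    intro T hTi
    filter_upwards [h2 T hTi] with c hc hc0 N
    obtain ⟨κ, hκ, h3⟩ := hc hc0
    exact Pool.Agent.P8H97.FE.prog_lit_inf hκ h3 N
  have h2 : ∀ l : ℕ, 1 ≤ l → GreenTao l → Dense l ∧ Along l ∧ Solvable l := fun l hl h =>
    h1 l hl (Pool.Agent.P8H97.FE.APl_of h)
  refine ⟨h1 2 (by norm_num) (Pool.Agent.P8H97.FE.ap_two
    (Pool.Agent.P8H44.FE.ap Pool.Agent.P8H97.FE.fam')), h2, fun h T hT => ?_⟩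
  filter_upwards [ae_all_iff.2 fun l : ℕ => (h2 (l + 1) (by omega) (h (l + 1) (by omega))).2.2 T hT]
    with c hc hc0 l N
  obtain ⟨m, n, hn, hnT, hm⟩ := hc l hc0 N
  exact ⟨m, n, hn, hnT, fun j hj => hm j (by omega)⟩

end Pool.Agent.Results.MP_cb2931_nt.AlmostAllProgressions
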